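import Mathlib
import Pool.Agent.Q283.MC.Main

/-!
# Mordell curves with positive rank along geometric progressions

For every nonzero integer `a` for which `y² = x³ + a` has positive rank over `ℚ` there are
infinitely many integers `Q`, neither squares nor cubes, such that all the curves
`y² = x³ + a Qⁱ` (`i = 0, 1, 2, …`) have positive rank.
-/

namespace Pool.Agent.Results.MP_cfe824_nt.InfinitelyManyProper

/-- The curve `E_b : y² = x³ + b` over `ℚ` (an elliptic curve when `b ≠ 0`). -/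
def E (b : ℤ) : WeierstrassCurve ℚ := ⟨0, 0, 0, 0, (b : ℚ)⟩

/-- `(a, Q)` is a proper solution: `Q` is neither a square nor a cube in `ℤ`, and for every
`i ≥ 0` the Mordell-Weil group of `E_{aQ^i}` over `ℚ` has positive rank. -/
def ProperSolution (a Q : ℤ) : Prop :=
  (¬ ∃ t : ℤ, Q = t ^ 2) ∧ (¬ ∃ t : ℤ, Q = t ^ 3) ∧
    ∀ i : ℕ, 0 < Module.rank ℤ (E (a * Q ^ i)).toAffine.Point

/-- For every nonzero integer `a` with `rk E_a > 0` there are infinitely many integers `Q` such
that `(a, Q)` is a proper solution. -/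
theorem result : ∀ a : ℤ, a ≠ 0 → 0 < Module.rank ℤ (E a).toAffine.Point →
    {Q : ℤ | ProperSolution a Q}.Infinite := by
  intro a ha hr
  obtain ⟨D, hD, hD0, hgood⟩ := Q283.MC.exists_D ha hr
  have hinj : Function.Injective (fun n : ℕ => -27 * D ^ 2 * ((n : ℤ) + 1) ^ 6) := by
    intro m n h
    have hc : (-27 * D ^ 2 : ℤ) ≠ 0 := by positivity
    have h1 : ((m : ℤ) + 1) ^ 6 = ((n : ℤ) + 1) ^ 6 := mul_left_cancel₀ hc h
    have h2 : ((m : ℤ) + 1) = ((n : ℤ) + 1) :=
      (pow_left_inj₀ (by positivity) (by positivity) (by norm_num)).mp h1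
    have h3 : (m : ℤ) = n := by linarith
    exact_mod_cast h3
  refine Set.infinite_of_injective_forall_mem hinj (fun n => ?_)
  have ht : ((n : ℤ) + 1) ≠ 0 := by positivity
  refine ⟨?_, ?_, ?_⟩
  · rintro ⟨t, h⟩
    have h1 : 0 < D ^ 2 * ((n : ℤ) + 1) ^ 6 := by positivity
    have h2 : 0 ≤ t ^ 2 := sq_nonneg t
    nlinarith
  · rintro ⟨t, h⟩
    exact Q283.MC.not_cube hD hD0 ht h
  · intro i
    have hg := (hgood i).scale (u := ((n : ℚ) + 1) ^ i) (by positivity)
    have he : ((a * (-27 * D ^ 2 * ((n : ℤ) + 1) ^ 6) ^ i : ℤ) : ℚ) =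
        a * (-27 * (D : ℚ) ^ 2) ^ i * (((n : ℚ) + 1) ^ i) ^ 6 := by
      push_cast
      rw [mul_pow (-27 * (D : ℚ) ^ 2) (((n : ℚ) + 1) ^ 6) i, ← pow_mul, ← pow_mul, mul_comm 6 i]
      ring
    have h := Q283.MC.rank_pos_of_good hg
    rw [← he] at h
    exact h

end Pool.Agent.Results.MP_cfe824_nt.InfinitelyManyProper
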